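import Pool.Agent.EBS.A01
import Pool.Agent.EBS.A02
import Pool.Agent.EBS.G25
import Pool.Agent.EBS.N10
import Pool.Agent.EBS.T18

/-!
# MP_73292c_gt, Q1: a prime non-torus knot all of whose even boundary slopes come from Seifert surfaces

The knot is the (3, 7)-cable of the torus knot T(3, 5), up to a mirror image. All definitions used in
the statement are in `Pool/Agent/EBS/Defs.lean`.
-/

set_option autoImplicit false

noncomputable section

open Set Topology unitInterval

namespace Pool.Agent.Results.MP_73292c_gt.EvenSlopes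

open Pool.Agent.EBS

theorem preferred_Kn : Kn.Preferred := by
  obtain ⟨C⟩ := cable_Kn
  let φ : Pi1 Kn.Ext (Kn.bd (1, 1)) →*
      Abelianization (FundamentalGroup Kn.Ext (Kn.bd (1, 1))) :=
    { toFun := fun g => Abelianization.of g.unop
      map_one' := by rw [MulOpposite.unop_one, map_one]
      map_mul' := fun g h => by rw [MulOpposite.unop_mul, map_mul, mul_comm] }
  have h1 : φ (tl Kn 1 0) = 1 := C.pref _ φ
  have h2 : tl Kn 1 0 = lc Kn.longitude := by
    rw [tl, lc_eq]
    have : tlPath Kn 1 0 = Kn.longitude := by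
      refine Path.ext (funext fun t => ?_)
      change Kn.bd (ec (((1 : ℤ) : ℝ) * t), ec (((0 : ℤ) : ℝ) * t)) = Kn.bd (ec t, 1)
      rw [Int.cast_one, one_mul, Int.cast_zero, zero_mul, ec_zero]
    rw [this]
  rw [h2] at h1
  exact h1

theorem prime_Kn : Kn.Prime := by
  intro S _ hs hess
  obtain ⟨C⟩ := cable_Kn
  obtain ⟨A, φ, hmem, hcomm, -⟩ := tmain S le_rfl isCoprime_one_left hs hess.2
  refine C.prime A φ (fun k₁ k₂ => ?_) hcomm
  obtain ⟨h, hh⟩ := hmem k₁ k₂
  rw [← tl_mul Kn isPathConnected_Kn k₁ k₂]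
  refine ⟨h, hh.trans ?_⟩
  congr 1
  push_cast
  ring

/-- There is a prime knot which is not a torus knot, such that every compact connected orientable
essential surface with nonempty boundary of even slope in its exterior is a Seifert surface. -/
theorem result : ∃ T : Tube, T.Preferred ∧ T.NotTorus ∧ T.Prime ∧
    ∀ (S : Surf T) (p q : ℤ) (n : ℕ), IsCoprime p q → 0 < q → Even p → 1 ≤ n →
      S.HasSlope p q n → S.Essential → S.IsSeifert := by
  refine ⟨Kn, preferred_Kn, notTorus, prime_Kn, fun S p q n hpq hq hp hn hs hess => ?_⟩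
  obtain ⟨C⟩ := cable_Kn
  rcases hn.lt_or_eq with hn2 | rfl
  · exfalso
    obtain ⟨A, φ, hmem, hcomm, htop⟩ := tmain S hn2 hpq hs hess.2
    refine C.main hn2 hpq hq hp A φ (fun k₁ k₂ => ?_) hcomm htop
    obtain ⟨h, hh⟩ := hmem k₁ k₂
    rw [← tl_mul Kn isPathConnected_Kn k₁ k₂]
    exact ⟨h, hh⟩
  · obtain ⟨ψ, hψ⟩ := tone S hpq hs
    obtain ⟨rfl, rfl⟩ := C.one hpq hq ψ fun k₁ k₂ => by
      rw [← tl_mul Kn isPathConnected_Kn k₁ k₂]
      exact hψ k₁ k₂
    exact hs

end Pool.Agent.Results.MP_73292c_gt.EvenSlopes
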